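import Pool.Agent.Helper82.BR.St

/-! MP_514f88_co, module FA: equality in the double counting. -/

set_option autoImplicit false

namespace Pool.Agent.Helper8.BR

open Pool.Agent.Helper82.BR

private theorem count (S : Finset ℂ) (p : ℂ) (hp : p ∈ S) :
    ∑ c ∈ S.erase p, ((S.erase p).filter (fun q => dist q c = dist p c)).card =
      ∑ q ∈ S.erase p, (S.filter (fun c => dist c p = dist c q)).card := by
  have h1 : ∀ q ∈ S.erase p, (S.filter (fun c => dist c p = dist c q)).card =
      ∑ c ∈ S.erase p, if dist q c = dist p c then 1 else 0 := by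
    intro q hq
    rw [Finset.card_filter, ← Finset.add_sum_erase S _ hp]
    have h2 : ¬ dist p p = dist p q := by
      rw [dist_self]
      intro h
      exact (Finset.mem_erase.1 hq).1 (dist_eq_zero.1 h.symm).symm
    rw [if_neg h2, zero_add]
    refine Finset.sum_congr rfl fun c _ => ?_
    by_cases h : dist c p = dist c q
    · rw [if_pos h, if_pos]
      rw [dist_comm q c, dist_comm p c, h]
    · rw [if_neg h, if_neg]
      intro h'
      apply h
      rw [dist_comm c p, dist_comm c q, h']
  rw [Finset.sum_congr rfl h1, Finset.sum_comm]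
  refine Finset.sum_congr rfl fun c _ => ?_
  rw [Finset.card_filter]

theorem hFA : StFA := by
  intro S hR h3 c hc p hp hpc
  have hcp : c ∈ S.erase p := Finset.mem_erase.2 ⟨hpc.symm, hc⟩
  have key : ∀ x ∈ S.erase p, (S.filter (fun s => dist s x = dist p x)).card =
      ((S.erase p).filter (fun s => dist s x = dist p x)).card + 1 := by
    intro x _
    have e : S.filter (fun s => dist s x = dist p x) =
        insert p ((S.erase p).filter (fun s => dist s x = dist p x)) := by
      ext s
      simp only [Finset.mem_filter, Finset.mem_insert, Finset.mem_erase]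
      constructor
      · rintro ⟨h1, h2⟩
        by_cases hs : s = p
        · exact Or.inl hs
        · exact Or.inr ⟨⟨hs, h1⟩, h2⟩
      · rintro (h | ⟨⟨-, h1⟩, h2⟩)
        · rw [h]; exact ⟨hp, rfl⟩
        · exact ⟨h1, h2⟩
    rw [e, Finset.card_insert_of_notMem]
    intro h
    exact (Finset.mem_erase.1 (Finset.mem_filter.1 h).1).1 rfl
  have hle : ∀ x ∈ S.erase p, ((S.erase p).filter (fun s => dist s x = dist p x)).card ≤ 2 := by
    intro x hx
    have h1 := key x hx
    have h2 := h3 x (Finset.mem_of_mem_erase hx) (dist p x)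
      (dist_pos.2 (Finset.ne_of_mem_erase hx).symm)
    omega
  have hge : ∀ q ∈ S.erase p, 2 ≤ (S.filter (fun c => dist c p = dist c q)).card := fun q hq =>
    hR p hp q (Finset.mem_of_mem_erase hq) (Finset.ne_of_mem_erase hq).symm
  have h4 := count S p hp
  have h5 : ∑ q ∈ S.erase p, 2 ≤ ∑ q ∈ S.erase p, (S.filter (fun c => dist c p = dist c q)).card :=
    Finset.sum_le_sum hge
  by_contra hne
  have h6 := key c hcp
  have h7 := hle c hcp
  have h8 : ((S.erase p).filter (fun s => dist s c = dist p c)).card < 2 := by omega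
  have h9 : ∑ x ∈ S.erase p, ((S.erase p).filter (fun s => dist s x = dist p x)).card <
      ∑ x ∈ S.erase p, 2 := Finset.sum_lt_sum hle ⟨c, hcp, h8⟩
  omega

end Pool.Agent.Helper8.BR
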