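import Pool.Agent.Helper82.BR.St3

set_option autoImplicit false

namespace Pool.Agent.Helper8.BR

open Pool.Agent.Helper82.BR

private theorem L8 {D : Finset ℂ} (hD : D.card ≤ 7) (a1 a2 a3 a4 a5 a6 a7 a8 : ℂ)
    (h1 : a1 ∈ D) (h2 : a2 ∈ D) (h3 : a3 ∈ D) (h4 : a4 ∈ D) (h5 : a5 ∈ D) (h6 : a6 ∈ D)
    (h7 : a7 ∈ D) (h8 : a8 ∈ D) (h : [a1, a2, a3, a4, a5, a6, a7, a8].Nodup) : False := by
  have e := List.toFinset_card_of_nodup h
  have s : [a1, a2, a3, a4, a5, a6, a7, a8].toFinset ⊆ D := by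
    intro x hx
    simp only [List.mem_toFinset, List.mem_cons, List.not_mem_nil, or_false] at hx
    rcases hx with rfl | rfl | rfl | rfl | rfl | rfl | rfl | rfl <;> assumption
  have := Finset.card_le_card s
  rw [e] at this
  simp at this
  omega

/-- the chain case -/
private theorem chain {D : Finset ℂ} (hD : D.card ≤ 7) {w R : ℂ} (hw : w ^ 2 = w - 1)
    (r1 : R ≠ 1) (r2 : R ≠ -1) (r3 : R ≠ w) (r4 : R ≠ -w) (r5 : R ≠ w - 1) (r6 : R ≠ 1 - w)
    (h0 : R ≠ 0) {u : ℂ} (hu : u ≠ 0)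
    (h1 : u ∈ D) (h2 : u * w ∈ D) (h3 : u * (w - 1) ∈ D) (h4 : -u ∈ D) (h5 : -(u * w) ∈ D)
    {v : ℂ} (hv : v = u * R)
    (h6 : v ∈ D) (h7 : v * w ∈ D) (h8 : v * (w - 1) ∈ D) : False := by
  subst hv
  have k1 : ∀ {a b : ℂ}, a ≠ b → u * a ≠ u * b := fun h h' => h (mul_left_cancel₀ hu h')
  apply L8 hD (u * 1) (u * w) (u * (w - 1)) (u * (-1)) (u * (-w)) (u * R) (u * (R * w))
    (u * (R * (w - 1))) (by simpa using h1) h2 h3 (by simpa using h4) (by simpa using h5) h6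
    (by simpa [mul_assoc] using h7) (by simpa [mul_assoc] using h8)
  have w1 : (1 : ℂ) ≠ w := by grind
  have w2 : (1 : ℂ) ≠ w - 1 := by grind
  have w3 : (1 : ℂ) ≠ -1 := by norm_num
  have w4 : (1 : ℂ) ≠ -w := by grind
  have w5 : w ≠ w - 1 := by grind
  have w6 : w ≠ -1 := by grind
  have w7 : w ≠ -w := by grind
  have w8 : w - 1 ≠ -1 := by grind
  have w9 : w - 1 ≠ -w := by grind
  have w10 : (-1 : ℂ) ≠ -w := by grind
  have s1 : ∀ c : ℂ, R * w = c → R = c * (1 - w) := by grind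
  have s2 : ∀ c : ℂ, R * (w - 1) = c → R = c * (-w) := by grind
  have t1 : (1 : ℂ) ≠ R * w := by grind
  have t2 : w ≠ R * w := by grind
  have t3 : w - 1 ≠ R * w := by grind
  have t4 : (-1 : ℂ) ≠ R * w := by grind
  have t5 : -w ≠ R * w := by grind
  have u1 : (1 : ℂ) ≠ R * (w - 1) := by grind
  have u2 : w ≠ R * (w - 1) := by grind
  have u3 : w - 1 ≠ R * (w - 1) := by grind
  have u4 : (-1 : ℂ) ≠ R * (w - 1) := by grind
  have u5 : -w ≠ R * (w - 1) := by grind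
  have v1 : R ≠ R * w := by grind
  have v2 : R ≠ R * (w - 1) := by grind
  have v3 : R * w ≠ R * (w - 1) := by grind
  simp only [List.nodup_cons, List.mem_cons, List.not_mem_nil, or_false, not_or,
    List.nodup_nil, not_false_eq_true, and_true]
  exact ⟨⟨k1 w1, k1 w2, k1 w3, k1 w4, k1 r1.symm, k1 t1, k1 u1⟩,
    ⟨k1 w5, k1 w6, k1 w7, k1 r3.symm, k1 t2, k1 u2⟩,
    ⟨k1 w8, k1 w9, k1 r5.symm, k1 t3, k1 u3⟩, ⟨k1 w10, k1 r2.symm, k1 t4, k1 u4⟩,
    ⟨k1 r4.symm, k1 t5, k1 u5⟩, ⟨k1 v1, k1 v2⟩, k1 v3⟩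

/-- the case `R = Q w` -/
private theorem casea {D : Finset ℂ} (hD : D.card ≤ 7) {w Q : ℂ} (hw : w ^ 2 = w - 1)
    (r1 : Q ≠ 1) (r2 : Q ≠ -1) (r3 : Q ≠ w) (r4 : Q ≠ -w) (r5 : Q ≠ w - 1) (r6 : Q ≠ 1 - w)
    (h0 : Q ≠ 0) (h1 : (1 : ℂ) ∈ D) (h2 : w ∈ D) (h3 : w - 1 ∈ D) (h4 : Q ∈ D) (h5 : Q * w ∈ D)
    (h6 : Q * (w - 1) ∈ D) (g1 : Q ^ 2 ∈ D) (g2 : Q ^ 2 * w ∈ D) :
    Q ^ 2 = w ∨ Q ^ 2 * w = 1 := by
  by_contra hcon
  push Not at hcon
  obtain ⟨c1, c2⟩ := hcon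
  have w1 : (1 : ℂ) ≠ w := by grind
  have w2 : (1 : ℂ) ≠ w - 1 := by grind
  have w5 : w ≠ w - 1 := by grind
  have t1 : (1 : ℂ) ≠ Q * w := by grind
  have t2 : w ≠ Q * w := by grind
  have t3 : w - 1 ≠ Q * w := by grind
  have u1 : (1 : ℂ) ≠ Q * (w - 1) := by grind
  have u2 : w ≠ Q * (w - 1) := by grind
  have u3 : w - 1 ≠ Q * (w - 1) := by grind
  have v1 : Q ≠ Q * w := by grind
  have v2 : Q ≠ Q * (w - 1) := by grind
  have v3 : Q * w ≠ Q * (w - 1) := by grind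
  have a1 : Q ^ 2 ≠ 1 := by
    intro h
    rcases mul_eq_zero.1 (show (Q - 1) * (Q + 1) = 0 by linear_combination h) with h | h
    · exact r1 (by linear_combination h)
    · exact r2 (by linear_combination h)
  have a3 : Q ^ 2 ≠ Q := by grind
  have a4 : Q ^ 2 ≠ Q * w := by grind
  have a5 : Q ^ 2 ≠ Q * (w - 1) := by grind
  have b3 : Q ^ 2 * w ≠ Q := by grind
  have b4 : Q ^ 2 * w ≠ Q * w := by grind
  have b5 : Q ^ 2 * w ≠ Q * (w - 1) := by grind
  have d3 : Q ^ 2 * (w - 1) ≠ Q := by grind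
  have d4 : Q ^ 2 * (w - 1) ≠ Q * w := by grind
  have d5 : Q ^ 2 * (w - 1) ≠ Q * (w - 1) := by grind
  have e1 : Q ^ 2 ≠ Q ^ 2 * w := by grind
  have e2 : Q ^ 2 ≠ Q ^ 2 * (w - 1) := by grind
  have e3 : Q ^ 2 * w ≠ Q ^ 2 * (w - 1) := by grind
  have f2 : Q ^ 2 ≠ w - 1 := by
    intro h
    rcases mul_eq_zero.1 (show (Q - w) * (Q + w) = 0 by linear_combination h - hw) with h | h
    · exact r3 (by linear_combination h)
    · exact r4 (by linear_combination h)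
  -- `Q ^ 2` is not in the first six
  have f4 : Q ^ 2 * w ≠ w := by grind
  have f5 : Q ^ 2 * w ≠ w - 1 := by grind
  apply L8 hD 1 w (w - 1) Q (Q * w) (Q * (w - 1)) (Q ^ 2) (Q ^ 2 * w) h1 h2 h3 h4 h5 h6 g1 g2
  simp only [List.nodup_cons, List.mem_cons, List.not_mem_nil, or_false, not_or,
    List.nodup_nil, not_false_eq_true, and_true]
  exact ⟨⟨w1, w2, r1.symm, t1, u1, a1.symm, c2.symm⟩, ⟨w5, r3.symm, t2, u2, c1.symm, f4.symm⟩,
    ⟨r5.symm, t3, u3, f2.symm, f5.symm⟩, ⟨v1, v2, a3.symm, b3.symm⟩, ⟨v3, a4.symm, b4.symm⟩,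
    ⟨a5.symm, b5.symm⟩, e1⟩

/-- the case (b) -/
private theorem caseb {D : Finset ℂ} (hD : D.card ≤ 7) {w Q R : ℂ} (hw : w ^ 2 = w - 1)
    (q1 : Q ≠ 1) (q2 : Q ≠ -1) (q3 : Q ≠ w) (q4 : Q ≠ -w) (q5 : Q ≠ w - 1) (q6 : Q ≠ 1 - w)
    (q0 : Q ≠ 0)
    (r1 : R ≠ 1) (r2 : R ≠ -1) (r3 : R ≠ w) (r4 : R ≠ -w) (r5 : R ≠ w - 1) (r6 : R ≠ 1 - w)
    (r0 : R ≠ 0) (n1 : Q ≠ R) (n2 : Q ≠ -R) (n3 : R ≠ Q * w) (n4 : Q ≠ R * w)
    (h1 : (1 : ℂ) ∈ D) (h2 : w ∈ D) (h3 : w - 1 ∈ D) (h4 : Q ∈ D) (h5 : Q * w ∈ D)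
    (h6 : R ∈ D) (h7 : R * w ∈ D) (g1 : Q ^ 2 ∈ D) (g2 : R ^ 2 ∈ D) (g3 : Q * R ∈ D) :
    (R = Q ^ 2 ∧ Q ^ 3 = w) ∨ (Q = R ^ 2 ∧ R ^ 3 = w) := by
  have w0 : w ≠ 0 := by grind
  have w1 : (1 : ℂ) ≠ w := by grind
  have w2 : (1 : ℂ) ≠ w - 1 := by grind
  have w5 : w ≠ w - 1 := by grind
  have t1 : (1 : ℂ) ≠ Q * w := by grind
  have t2 : w ≠ Q * w := by grind
  have t3 : w - 1 ≠ Q * w := by grind
  have u1 : (1 : ℂ) ≠ R * w := by grind
  have u2 : w ≠ R * w := by grind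
  have u3 : w - 1 ≠ R * w := by grind
  have v1 : Q ≠ Q * w := by grind
  have v2 : R ≠ R * w := by grind
  have v3 : Q * w ≠ R * w := fun h => n1 (mul_right_cancel₀ w0 h)
  have key : ∀ x ∈ D, x = 1 ∨ x = w ∨ x = w - 1 ∨ x = Q ∨ x = Q * w ∨ x = R ∨ x = R * w := by
    intro x hx
    by_contra hcon
    push Not at hcon
    obtain ⟨c1, c2, c3, c4, c5, c6, c7⟩ := hcon
    apply L8 hD x 1 w (w - 1) Q (Q * w) R (R * w) hx h1 h2 h3 h4 h5 h6 h7
    simp only [List.nodup_cons, List.mem_cons, List.not_mem_nil, or_false, not_or,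
      List.nodup_nil, not_false_eq_true, and_true]
    exact ⟨⟨c1, c2, c3, c4, c5, c6, c7⟩, ⟨w1, w2, q1.symm, t1, r1.symm, u1⟩,
      ⟨w5, q3.symm, t2, r3.symm, u2⟩, ⟨q5.symm, t3, r5.symm, u3⟩, ⟨v1, n1, n4⟩,
      ⟨n3.symm, v3⟩, v2⟩
  have sq : ∀ x : ℂ, x ≠ 1 → x ≠ -1 → x ≠ w → x ≠ -w → x ≠ 0 →
      x ^ 2 ≠ 1 ∧ x ^ 2 ≠ w - 1 ∧ x ^ 2 ≠ x ∧ x ^ 2 ≠ x * w := by
    intro x x1 x2 x3 x4 x0
    refine ⟨?_, ?_, ?_, ?_⟩
    · intro h
      rcases mul_eq_zero.1 (show (x - 1) * (x + 1) = 0 by linear_combination h) with h | h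
      · exact x1 (by linear_combination h)
      · exact x2 (by linear_combination h)
    · intro h
      rcases mul_eq_zero.1 (show (x - w) * (x + w) = 0 by linear_combination h - hw) with h | h
      · exact x3 (by linear_combination h)
      · exact x4 (by linear_combination h)
    · intro h
      exact x1 (mul_left_cancel₀ x0 (by linear_combination h))
    · intro h
      exact x3 (mul_left_cancel₀ x0 (by linear_combination h))
  obtain ⟨a1, a2, a3, a4⟩ := sq Q q1 q2 q3 q4 q0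
  obtain ⟨b1, b2, b3, b4⟩ := sq R r1 r2 r3 r4 r0
  have kQ : Q ^ 2 = w ∨ Q ^ 2 = R ∨ Q ^ 2 = R * w := by
    rcases key _ g1 with h | h | h | h | h | h | h
    · exact absurd h a1
    · exact Or.inl h
    · exact absurd h a2
    · exact absurd h a3
    · exact absurd h a4
    · exact Or.inr (Or.inl h)
    · exact Or.inr (Or.inr h)
  have kR : R ^ 2 = w ∨ R ^ 2 = Q ∨ R ^ 2 = Q * w := by
    rcases key _ g2 with h | h | h | h | h | h | h
    · exact absurd h b1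
    · exact Or.inl h
    · exact absurd h b2
    · exact Or.inr (Or.inl h)
    · exact Or.inr (Or.inr h)
    · exact absurd h b3
    · exact absurd h b4
  have kQR : Q * R = 1 ∨ Q * R = w ∨ Q * R = w - 1 := by
    rcases key _ g3 with h | h | h | h | h | h | h
    · exact Or.inl h
    · exact Or.inr (Or.inl h)
    · exact Or.inr (Or.inr h)
    · exact absurd (mul_left_cancel₀ q0 (h.trans (mul_one Q).symm)) r1
    · exact absurd (mul_left_cancel₀ q0 h) r3
    · exact absurd (mul_right_cancel₀ r0 (h.trans (one_mul R).symm)) q1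
    · exact absurd (mul_right_cancel₀ r0 (h.trans (mul_comm R w))) q3
  -- the mixed cases
  have mix : ∀ x y : ℂ, x ^ 2 = w → (y ^ 2 = x ∨ y ^ 2 = x * w) →
      (x * y = 1 ∨ x * y = w ∨ x * y = w - 1) → y ≠ 1 → y ≠ w → y ≠ w - 1 → y ≠ 1 - w →
      y ≠ 0 → False := by
    intro x y hx hy hxy y1 y3 y5 y6 y0
    rcases hy with hy | hy
    · subst hy
      rcases hxy with h | h | h
      · exact y3 (by linear_combination hx - y * h)
      · have : w * y = w * 1 := by linear_combination hx - y * h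
        exact y1 (mul_left_cancel₀ w0 this)
      · have : (w - 1) * y = w := by linear_combination hx - y * h
        exact y6 (by grind)
    · have h4 : y ^ 4 = -1 := by
        have e : y ^ 4 = x ^ 2 * w ^ 2 := by linear_combination (y ^ 2 + x * w) * hy
        rw [e, hx]
        linear_combination (w + 1) * hw
      have h3 : x * y * w = y ^ 3 := by linear_combination (-y) * hy
      rcases hxy with h | h | h
      · have : w * y = -1 := by
          rw [h] at h3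
          linear_combination h4 + y * h3
        exact y5 (by grind)
      · have : (w - 1) * y = -1 := by
          rw [h] at h3
          linear_combination h4 + y * h3 - y * hw
        exact y3 (by grind)
      · have : (-1) * y = -1 := by
          rw [h] at h3
          linear_combination h4 + y * h3 - y * hw
        exact y1 (by grind)
  rcases kQ with hQ | hQ | hQ
  · rcases kR with hR | hR | hR
    · exfalso
      rcases mul_eq_zero.1 (show (Q - R) * (Q + R) = 0 by linear_combination hQ - hR) with h | h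
      · exact n1 (by linear_combination h)
      · exact n2 (by linear_combination h)
    · exact (mix Q R hQ (Or.inl hR) kQR r1 r3 r5 r6 r0).elim
    · exact (mix Q R hQ (Or.inr hR) kQR r1 r3 r5 r6 r0).elim
  · rcases kR with hR | hR | hR
    · exact (mix R Q hR (Or.inl hQ) (by rwa [mul_comm]) q1 q3 q5 q6 q0).elim
    · exfalso
      have h4 : Q * Q ^ 3 = Q * 1 := by
        rw [← hQ] at hR
        linear_combination hR
      have h3 := mul_left_cancel₀ q0 h4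
      rcases mul_eq_zero.1 (show (Q - 1) * ((Q - (w - 1)) * (Q + w)) = 0 by
        linear_combination h3 - (Q - 1) * hw) with h | h
      · exact q1 (by linear_combination h)
      · rcases mul_eq_zero.1 h with h | h
        · exact q5 (by linear_combination h)
        · exact q4 (by linear_combination h)
    · left
      refine ⟨hQ.symm, mul_left_cancel₀ q0 ?_⟩
      rw [← hQ] at hR
      linear_combination hR
  · rcases kR with hR | hR | hR
    · exact (mix R Q hR (Or.inr hQ) (by rwa [mul_comm]) q1 q3 q5 q6 q0).elim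
    · right
      refine ⟨hR.symm, mul_left_cancel₀ r0 ?_⟩
      rw [← hR] at hQ
      linear_combination hQ
    · exfalso
      have h4 : Q * Q ^ 3 = Q * (-1) := by
        have e : Q ^ 4 = R ^ 2 * w ^ 2 := by linear_combination (Q ^ 2 + R * w) * hQ
        have e2 : Q * Q ^ 3 = Q ^ 4 := by ring
        rw [e2, e, hR]
        linear_combination Q * (w + 1) * hw
      have h3 := mul_left_cancel₀ q0 h4
      rcases mul_eq_zero.1 (show (Q + 1) * ((Q - w) * (Q - (1 - w))) = 0 by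
        linear_combination h3 - (Q + 1) * hw) with h | h
      · exact q2 (by linear_combination h)
      · rcases mul_eq_zero.1 h with h | h
        · exact q3 (by linear_combination h)
        · exact q6 (by linear_combination h)

private theorem chain2 {D : Finset ℂ} (hD : D.card ≤ 7) {w Q R : ℂ} (hw : w ^ 2 = w - 1)
    (r1 : R ≠ 1) (r2 : R ≠ -1) (r3 : R ≠ w) (r4 : R ≠ -w) (r0 : R ≠ 0) (n1 : R ≠ Q)
    (n2 : R ≠ -Q)
    (h1 : (1 : ℂ) ∈ D) (h2 : w ∈ D) (h3 : w - 1 ∈ D) (h4 : Q ∈ D) (h5 : Q * w ∈ D)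
    (h6 : R ∈ D) (h7 : R * w ∈ D) (g1 : Q ^ 2 ∈ D) (g3 : Q * R ∈ D) :
    Q ≠ w - 1 ∧ Q ≠ 1 - w := by
  constructor
  · intro hQ
    subst hQ
    have e1 : (w - 1) * w = -1 := by linear_combination hw
    have e2 : (w - 1) ^ 2 = -w := by linear_combination hw
    rw [e1] at h5
    rw [e2] at g1
    apply chain hD hw r1 r2 r3 r4 n1 (by intro h; exact n2 (by linear_combination h)) r0
      (u := 1) one_ne_zero h1 (by simpa using h2) (by simpa using h3) h5 (by simpa using g1)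
      (v := R) (one_mul R).symm h6 h7 (by rwa [mul_comm] at g3)
  · intro hQ
    subst hQ
    have w0 : w ≠ 0 := by grind
    have e2 : (1 - w) ^ 2 = -w := by linear_combination hw
    rw [e2] at g1
    have a5 : R ≠ w - 1 := by intro h; exact n2 (by linear_combination h)
    apply chain hD hw (R := R * w) (by grind) (by grind) (by grind) (by grind) (by grind) (by grind)
      (mul_ne_zero r0 w0) (u := -w) (neg_ne_zero.2 w0) g1
      (by rw [show -w * w = 1 - w by linear_combination -hw]; exact h4)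
      (by rw [show -w * (w - 1) = 1 by linear_combination -hw]; exact h1)
      (by rw [neg_neg]; exact h2)
      (by rw [show -(-w * w) = w - 1 by linear_combination hw]; exact h3)
      (v := (1 - w) * R) (by linear_combination R * hw) g3
      (by rw [show (1 - w) * R * w = R by linear_combination -R * hw]; exact h6)
      (by rw [show (1 - w) * R * (w - 1) = R * w by linear_combination -R * hw]; exact h7)

theorem hGP : StGP := by
  intro D w p q r hw hD hp hq hr hprod hneg n1 n2 n3 n4 n5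
  obtain ⟨Q, rfl⟩ : ∃ Q, q = p * Q := ⟨q / p, by field_simp⟩
  obtain ⟨R, rfl⟩ : ∃ R, r = p * R := ⟨r / p, by field_simp⟩
  have q0 : Q ≠ 0 := (mul_ne_zero_iff.1 hq).2
  have r0 : R ≠ 0 := (mul_ne_zero_iff.1 hr).2
  have w0 : w ≠ 0 := by grind
  set A : Finset ℂ := {p, p * w, p * Q, p * R} with hA
  have mA : ∀ z, z ∈ A ↔ z = p ∨ z = p * w ∨ z = p * Q ∨ z = p * R := by
    intro z
    rw [hA]
    simp only [Finset.mem_insert, Finset.mem_singleton]
  have a1 : p * 1 ∈ A := (mA _).2 (Or.inl (mul_one p))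
  have a2 : p * w ∈ A := (mA _).2 (Or.inr (Or.inl rfl))
  have a3 : p * Q ∈ A := (mA _).2 (Or.inr (Or.inr (Or.inl rfl)))
  have a4 : p * R ∈ A := (mA _).2 (Or.inr (Or.inr (Or.inr rfl)))
  have hng : ∀ x y : ℂ, p * x ∈ A → p * y ∈ A → x ≠ -y := by
    intro x y hx hy h
    exact hneg _ hy (by rw [← mul_neg, ← h]; exact hx)
  set E : Finset ℂ := D.image (fun z => z / p ^ 2) with hE
  have hEc : E.card ≤ 7 := Finset.card_image_le.trans hD
  have hm : ∀ x y : ℂ, p * x ∈ A → p * y ∈ A → x * y ∈ E := by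
    intro x y hx hy
    rw [hE, Finset.mem_image]
    exact ⟨_, hprod _ hx _ hy, by field_simp⟩
  have q1 : Q ≠ 1 := fun h => n1 (by rw [h, mul_one])
  have q3 : Q ≠ w := fun h => n2 (by rw [h])
  have r1 : R ≠ 1 := fun h => n3 (by rw [h, mul_one])
  have r3 : R ≠ w := fun h => n4 (by rw [h])
  have m1 : Q ≠ R := fun h => n5 (by rw [h])
  have q2 : Q ≠ -1 := hng _ _ a3 a1
  have q4 : Q ≠ -w := hng _ _ a3 a2
  have r2 : R ≠ -1 := hng _ _ a4 a1
  have r4 : R ≠ -w := hng _ _ a4 a2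
  have m2 : Q ≠ -R := hng _ _ a3 a4
  have m3 : R ≠ -Q := hng _ _ a4 a3
  have e1 : (1 : ℂ) ∈ E := by simpa using hm _ _ a1 a1
  have e2 : w ∈ E := by simpa using hm _ _ a1 a2
  have e3 : w - 1 ∈ E := by
    have := hm _ _ a2 a2
    rwa [← pow_two, hw] at this
  have e4 : Q ∈ E := by simpa using hm _ _ a1 a3
  have e5 : Q * w ∈ E := hm _ _ a3 a2
  have e6 : R ∈ E := by simpa using hm _ _ a1 a4
  have e7 : R * w ∈ E := hm _ _ a4 a2
  have f1 : Q ^ 2 ∈ E := by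
    have := hm _ _ a3 a3
    rwa [← pow_two] at this
  have f2 : R ^ 2 ∈ E := by
    have := hm _ _ a4 a4
    rwa [← pow_two] at this
  have f3 : Q * R ∈ E := hm _ _ a3 a4
  have f4 : R * Q ∈ E := hm _ _ a4 a3
  obtain ⟨q5, q6⟩ := chain2 hEc hw r1 r2 r3 r4 r0 m1.symm m3 e1 e2 e3 e4 e5 e6 e7 f1 f3
  obtain ⟨r5, r6⟩ := chain2 hEc hw q1 q2 q3 q4 q0 m1 m2 e1 e2 e3 e6 e7 e4 e5 f2 f4
  have fin1 : ∀ x y : ℂ, p * x ∈ A → p * y ∈ A → x ≠ 0 → y = x * w → (x ^ 2 = w ∨ x ^ 2 * w = 1) →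
      ∃ u ρ : ℂ, u ∈ A ∧ u * ρ ∈ A ∧ u * ρ ^ 2 ∈ A ∧ u * ρ ^ 3 ∈ A ∧ (ρ ^ 2 = w ∨ ρ ^ 3 = w) := by
    intro x y hx hy x0 hxy h
    rcases h with h | h
    · refine ⟨p, x, by simpa using a1, hx, by rw [h]; exact a2, ?_, Or.inl h⟩
      rw [show x ^ 3 = y by rw [hxy, ← h]; ring]
      exact hy
    · have i2 : x⁻¹ ^ 2 = w := by
        rw [inv_pow]
        exact inv_eq_of_mul_eq_one_right h
      refine ⟨p * x, x⁻¹, hx, ?_, ?_, ?_, Or.inl i2⟩
      · rw [mul_assoc, mul_inv_cancel₀ x0]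
        exact a1
      · rw [i2, mul_assoc, ← hxy]
        exact hy
      · rw [pow_succ, i2]
        rw [show p * x * (w * x⁻¹) = p * w * (x * x⁻¹) by ring, mul_inv_cancel₀ x0, mul_one]
        exact a2
  by_cases c1 : R = Q * w
  · exact fin1 Q R a3 a4 q0 c1 (casea hEc hw q1 q2 q3 q4 q5 q6 q0 e1 e2 e3 e4 e5
      (by
        rw [← hw, show Q * w ^ 2 = R * w by rw [c1]; ring]
        exact e7) f1
      (by rw [show Q ^ 2 * w = Q * R by rw [c1]; ring]; exact f3))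
  by_cases c2 : Q = R * w
  · exact fin1 R Q a4 a3 r0 c2 (casea hEc hw r1 r2 r3 r4 r5 r6 r0 e1 e2 e3 e6 e7
      (by
        rw [← hw, show R * w ^ 2 = Q * w by rw [c2]; ring]
        exact e5) f2
      (by rw [show R ^ 2 * w = R * Q by rw [c2]; ring]; exact f4))
  rcases caseb hEc hw q1 q2 q3 q4 q5 q6 q0 r1 r2 r3 r4 r5 r6 r0 m1 m2 c1 c2 e1 e2 e3 e4 e5 e6 e7
    f1 f2 f3 with ⟨h, h'⟩ | ⟨h, h'⟩
  · exact ⟨p, Q, by simpa using a1, a3, by rw [← h]; exact a4, by rw [h']; exact a2, Or.inr h'⟩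
  · exact ⟨p, R, by simpa using a1, a4, by rw [← h]; exact a3, by rw [h']; exact a2, Or.inr h'⟩

end Pool.Agent.Helper8.BR
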